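import Mathlib
import Pool.Agent.Q164.SM.Analytic
import Pool.Agent.Q164.SM.Final

/-!
# Q1: `STM(𝒞)` is `Π¹₁`-complete

The strictly monotone closed sublattices of `𝒞 = C(Δ; L₁)` form a `Π¹₁`-complete set in the
Wijsman topology.
-/

set_option autoImplicit false
set_option linter.style.haveILetI false

open Q164.SM

namespace Pool.Agent.Results.MP_4a2ece_lc.StrictMonotonePi11Complete

/-- The set of strictly monotone closed sublattices of `C(Δ; L₁[0,1])` is `Π¹₁`-complete in the
Wijsman topology. -/
theorem result : Pi11Complete (STM CC) where
  coanalytic := by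
    haveI : Fact ((1 : ENNReal) ≠ ⊤) := ⟨ENNReal.one_ne_top⟩
    haveI : SecondCountableTopology L1 := inferInstance
    haveI : SecondCountableTopology CC := inferInstance
    exact analyticSet_compl_STM
  hard := hard

end Pool.Agent.Results.MP_4a2ece_lc.StrictMonotonePi11Complete
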